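import Mathlib
import Pool.Agent.Lib.MP_7d6803_gt.Defs
import Pool.Agent.Lib.MP_7d6803_gt.Assemble

/-!
# MP_7d6803_gt: cocompact Kleinian groups acting properly discontinuously on `H^{N,N-1}_+`

If some cocompact Kleinian group admits a properly discontinuous isometric action on
`H^{N,N-1}_+`, then `4 ∣ N`.

Sketch. Let `Γ` act through `φ : Γ → O(N,N)`. The plane `φ(γ)(0 ⊕ ℝ^N)` is the graph of a linear
contraction `T_γ`. With a cutoff function `χ` on `H³`, the averages
`T_x = ∑_γ χ(γ⁻¹ x) T_γ / ∑_γ χ(γ⁻¹ x)` depend continuously on `x ∈ H³`, and proper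
discontinuity implies that `T_x - T_y` is invertible as soon as `x`, `y` are far apart (cones are
convex along graphs). On a large sphere, `x ↦ T_x - T_{-x}` is then an odd map from the two-sphere
to invertible `N × N` matrices, and such a map exists only if `4 ∣ N`: this is shown by lifting to
the line of spinors, the volume element having square `-1` if `N = 2` modulo `4`.
-/

namespace Pool.Agent.Results.MP_7d6803_gt.FourDividesN

open Pool.Agent.Lib.MP_7d6803_gt

/-- If some cocompact Kleinian group `Γ` admits a properly discontinuous isometric action `φ` on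
`H^{N,N-1}_+`, then `4` divides `N`. -/
theorem result (N : ℕ) (_hN : 1 ≤ N)
    (h : ∃ Γ : Subgroup PSL2C, IsCocompactKleinian Γ ∧
      ∃ φ : Γ →* ONN N, IsProperlyDiscontinuous N φ) : 4 ∣ N := by
  obtain ⟨Γ, hΓ, φ, hφ⟩ := h
  exact four_dvd_of_proper N Γ hΓ φ hφ

end Pool.Agent.Results.MP_7d6803_gt.FourDividesN
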